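import Pool.Agent.Helper62.GR.Goals

/-!
# Project GR, packet AU: a homeomorphism which conjugates the group onto a dense subgroup is an
automorphism of the tree
-/

set_option autoImplicit false

namespace Pool.Agent.Helper45.GR

open Equiv Pool.Agent.Helper62.GR

theorem pr_cn (g0 g1 : Perm X) (i : Bool) (x : X) :
    pr g0 g1 (cn i x) = cn i ((cond i g1 g0 : Perm X) x) := by
  cases i <;> simp

theorem bool_ne {a b : Bool} (h : a ≠ b) : a = !b := by
  cases a <;> cases b <;> simp_all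

theorem agr_one {x y : X} : Agr 1 x y ↔ x 0 = y 0 :=
  ⟨fun h => h 0 (by omega), fun h i hi => by
    have : i = 0 := by omega
    subst this; exact h⟩

/-- the first letter -/
theorem first (hSE : G_SE) (hLT : G_LT) (f : Perm X) (hf : SN f) :
    ∃ c : Bool, ∀ x, (f x) 0 = xor (x 0) c := by
  obtain ⟨hc, hci, hn, hd⟩ := hf
  obtain ⟨SE1, SE2, SE3, SE4, SE5⟩ := hSE
  obtain ⟨LT1, -⟩ := hLT
  set F : X → Bool := fun x => (f⁻¹ x) 0 with hF
  have hnear : ∀ y, ∃ k, ∀ z, Agr k y z → F y = F z := by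
    intro y
    obtain ⟨k, hk⟩ := hci y 1
    exact ⟨k, fun z hz => agr_one.mp (hk z hz)⟩
  have A1 : ∀ g ∈ GG, ∀ x y, F (g x) = F (g y) ↔ F x = F y := by
    intro g hg x y
    obtain ⟨k1, hk1⟩ := hnear (g x)
    obtain ⟨k2, hk2⟩ := hnear (g y)
    obtain ⟨h, hh, hhd⟩ := hd (max k1 k2) g hg
    have e : ∀ z, F ((f * h * f⁻¹) z) = (h (f⁻¹ z)) 0 := by
      intro z
      simp [hF, Perm.mul_apply]
    have e1 : F (g x) = (h (f⁻¹ x)) 0 := by
      rw [← e]; exact hk1 _ (((hhd x).symm).mono (le_max_left _ _))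
    have e2 : F (g y) = (h (f⁻¹ y)) 0 := by
      rw [← e]; exact hk2 _ (((hhd y).symm).mono (le_max_right _ _))
    rw [e1, e2, ← agr_one, SE1 h hh, agr_one]
  have A2 : ∀ s x, F (gs s x) = F x := by
    intro s x
    have h1 := A1 (gs s) (gs_mem s) x xi
    rw [gs_xi] at h1
    by_cases h2 : F x = F xi
    · rw [h1.mpr h2, h2]
    · have h3 : F (gs s x) ≠ F xi := fun h => h2 (h1.mp h)
      rw [bool_ne h3, bool_ne h2]
  have A3 : ∀ x, F (ga x) = !F x := by
    by_contra hcon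
    push Not at hcon
    obtain ⟨x, hx⟩ := hcon
    have hx' : F (ga x) = F x := by
      have := bool_ne hx; rwa [Bool.not_not] at this
    have h1 : ∀ y, F (ga y) = F y := by
      intro y
      have h2 := A1 ga ga_mem y x
      rw [hx'] at h2
      by_cases h3 : F y = F x
      · rw [h2.mpr h3, h3]
      · have h4 : F (ga y) ≠ F x := fun h => h3 (h2.mp h)
        rw [bool_ne h4, bool_ne h3]
    have h5 : ∀ g ∈ GG, ∀ x, F (g x) = F x := by
      apply GG_induction
      · intro x; rfl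
      · intro g _ ih x
        rw [Perm.mul_apply, h1, ih]
      · intro s g _ ih x
        rw [Perm.mul_apply, A2, ih]
    have h6 : ∀ x y, F x = F y := by
      intro x y
      obtain ⟨k, hk⟩ := hnear y
      obtain ⟨g, hg, hgk⟩ := LT1 k x y
      rw [hk _ hgk.symm, h5 g hg]
    have h7 := h6 (f fun _ => true) (f fun _ => false)
    simp [hF] at h7
  have A4 : ∀ g ∈ GG, ∀ x, xor (F (g x)) (F x) = xor ((g x) 0) (x 0) := by
    apply GG_induction
    · intro x; simp
    · intro g _ ih x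
      rw [Perm.mul_apply, A3, ga_apply_zero]
      have := ih x
      revert this
      cases F (g x) <;> cases F x <;> cases (g x) 0 <;> cases x 0 <;> simp
    · intro s g _ ih x
      rw [Perm.mul_apply, A2]
      exact ih x
  have A5 : ∀ x y : X, x 0 = y 0 → F x = F y := by
    intro x y hxy
    obtain ⟨k, hk⟩ := hnear y
    obtain ⟨g, hg, hgk⟩ := LT1 k (tl x) (tl y)
    have hh : ∃ h ∈ GG, h x = cn (x 0) (g (tl x)) := by
      rcases Bool.eq_false_or_eq_true (x 0) with h0 | h0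
      · obtain ⟨h, _, hp⟩ := SE3 g hg
        refine ⟨pr h g, hp, ?_⟩
        conv_lhs => rw [← cn_tl x]
        rw [h0, pr_true]
      · obtain ⟨h, _, hp⟩ := SE4 g hg
        refine ⟨pr g h, hp, ?_⟩
        conv_lhs => rw [← cn_tl x]
        rw [h0, pr_false]
    obtain ⟨h, hh, he⟩ := hh
    have h1 := A4 h hh x
    rw [he, cn_zero, Bool.xor_self] at h1
    have h2 : F (cn (x 0) (g (tl x))) = F x := by
      revert h1
      cases F (cn (x 0) (g (tl x))) <;> cases F x <;> simp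
    have h3 : Agr (k + 1) y (cn (x 0) (g (tl x))) := by
      rw [← cn_tl y, Agr_cn]
      exact ⟨hxy.symm, hgk.symm⟩
    rw [hk _ (h3.mono (by omega)), h2]
  have A6 : ∀ x : X, F x = xor (x 0) (F (cn false xi)) := by
    intro x
    rcases Bool.eq_false_or_eq_true (x 0) with h0 | h0
    · have h1 : F (ga x) = F (cn false xi) := A5 _ _ (by rw [ga_apply_zero, h0]; rfl)
      rw [A3] at h1
      rw [← h1, h0]
      cases F x <;> rfl
    · have h1 : F x = F (cn false xi) := A5 _ _ (by rw [h0]; rfl)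
      rw [h1, h0, Bool.false_xor]
  refine ⟨F (cn false xi), fun x => ?_⟩
  have h1 := A6 (f x)
  have h2 : F (f x) = x 0 := by simp [hF]
  rw [h2] at h1
  rw [h1]
  cases (f x) 0 <;> cases F (cn false xi) <;> rfl

/-- a permutation which fixes the first letter -/
theorem exists_pr (f : Perm X) (h : ∀ x, (f x) 0 = x 0) : ∃ g0 g1, f = pr g0 g1 := by
  have hi : ∀ x, (f⁻¹ x) 0 = x 0 := by
    intro x
    have := h (f⁻¹ x)
    rw [← this]; simp
  have e : ∀ i x, cn i (tl (f (cn i x))) = f (cn i x) := by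
    intro i x
    conv_rhs => rw [← cn_tl (f (cn i x)), h, cn_zero]
  have e' : ∀ i x, cn i (tl (f⁻¹ (cn i x))) = f⁻¹ (cn i x) := by
    intro i x
    conv_rhs => rw [← cn_tl (f⁻¹ (cn i x)), hi, cn_zero]
  let G : Bool → Perm X := fun i =>
    { toFun := fun x => tl (f (cn i x))
      invFun := fun x => tl (f⁻¹ (cn i x))
      left_inv := fun x => by
        show tl (f⁻¹ (cn i (tl (f (cn i x))))) = x
        rw [e]; simp
      right_inv := fun x => by
        show tl (f (cn i (tl (f⁻¹ (cn i x))))) = x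
        rw [e']; simp }
  refine ⟨G false, G true, perm_ext ?_⟩
  intro i x
  rw [pr_cn]
  have : (cond i (G true) (G false) : Perm X) = G i := by cases i <;> rfl
  rw [this]
  exact (e i x).symm

theorem SN_mul (hSE : G_SE) (u : Perm X) (hu : u ∈ GG) (f : Perm X) (hf : SN f) : SN (u * f) := by
  obtain ⟨hc, hci, hn, hd⟩ := hf
  obtain ⟨SE1, SE2, SE3, SE4, SE5⟩ := hSE
  have hui : u⁻¹ ∈ GG := GG.inv_mem hu
  refine ⟨?_, ?_, ?_, ?_⟩
  · intro x n
    obtain ⟨k, hk⟩ := hc x n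
    refine ⟨k, fun y hy => ?_⟩
    rw [Perm.mul_apply, Perm.mul_apply, SE1 u hu]
    exact hk y hy
  · intro x n
    obtain ⟨k, hk⟩ := hci (u⁻¹ x) n
    refine ⟨k, fun y hy => ?_⟩
    rw [mul_inv_rev, Perm.mul_apply, Perm.mul_apply]
    exact hk _ ((SE1 u⁻¹ hui k x y).mpr hy)
  · intro g hg
    have : u * f * g * (u * f)⁻¹ = u * (f * g * f⁻¹) * u⁻¹ := by group
    rw [this]
    exact GG.mul_mem (GG.mul_mem hu (hn g hg)) hui
  · intro n g hg
    obtain ⟨h, hh, hhd⟩ := hd n (u⁻¹ * g * u) (GG.mul_mem (GG.mul_mem hui hg) hu)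
    refine ⟨h, hh, fun x => ?_⟩
    have h1 := hhd (u⁻¹ x)
    have h2 : (u⁻¹ * g * u) (u⁻¹ x) = u⁻¹ (g x) := by simp [Perm.mul_apply]
    rw [h2] at h1
    have h3 := (SE1 u hu n _ _).mpr h1
    have h4 : u (u⁻¹ (g x)) = g x := by simp
    rw [h4] at h3
    have h5 : (u * f * h * (u * f)⁻¹) x = u ((f * h * f⁻¹) (u⁻¹ x)) := by
      simp [Perm.mul_apply, mul_inv_rev]
    rw [h5]
    exact h3

theorem CtX_sec (g0 g1 : Perm X) (h : CtX (pr g0 g1)) (i : Bool) : CtX (cond i g1 g0 : Perm X) := by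
  intro x n
  obtain ⟨k, hk⟩ := h (cn i x) (n + 1)
  refine ⟨k, fun y hy => ?_⟩
  have h1 := hk (cn i y) ((Agr_cn.mpr ⟨rfl, hy⟩ : Agr (k + 1) _ _).mono (by omega))
  rw [pr_cn, pr_cn, Agr_cn] at h1
  exact h1.2

theorem SN_sec (hSE : G_SE) (g0 g1 : Perm X) (hf : SN (pr g0 g1)) (i : Bool) :
    SN (cond i g1 g0 : Perm X) := by
  obtain ⟨hc, hci, hn, hd⟩ := hf
  obtain ⟨SE1, SE2, SE3, SE4, SE5⟩ := hSE
  have hinv : (cond i g1 g0 : Perm X)⁻¹ = cond i g1⁻¹ g0⁻¹ := by cases i <;> rfl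
  -- an element with given section
  have hex : ∀ g ∈ GG, ∃ h0 h1, pr h0 h1 ∈ GG ∧ (cond i h1 h0 : Perm X) = g := by
    intro g hg
    cases i
    · obtain ⟨h, _, hp⟩ := SE4 g hg
      exact ⟨g, h, hp, rfl⟩
    · obtain ⟨h, _, hp⟩ := SE3 g hg
      exact ⟨h, g, hp, rfl⟩
  have hconj : ∀ h0 h1 : Perm X, pr g0 g1 * pr h0 h1 * (pr g0 g1)⁻¹
      = pr (g0 * h0 * g0⁻¹) (g1 * h1 * g1⁻¹) := by
    intro h0 h1
    rw [pr_inv, pr_mul, pr_mul]
  have hcond : ∀ h0 h1 : Perm X, (cond i (g1 * h1 * g1⁻¹) (g0 * h0 * g0⁻¹) : Perm X)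
      = (cond i g1 g0 : Perm X) * (cond i h1 h0 : Perm X) * (cond i g1 g0 : Perm X)⁻¹ := by
    intro h0 h1
    cases i <;> rfl
  refine ⟨CtX_sec _ _ hc i, ?_, ?_, ?_⟩
  · rw [hinv]
    rw [pr_inv] at hci
    exact CtX_sec _ _ hci i
  · intro g hg
    obtain ⟨h0, h1, hp, rfl⟩ := hex g hg
    have h2 := hn _ hp
    rw [hconj] at h2
    have h3 := SE5 _ _ h2
    rw [← hcond]
    cases i
    · exact h3.1
    · exact h3.2
  · intro n g hg
    obtain ⟨h0, h1, hp, rfl⟩ := hex g hg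
    obtain ⟨h, hh, hhd⟩ := hd (n + 1) _ hp
    obtain ⟨u, hu, v, hv, hcase⟩ := SE2 h hh
    rcases hcase with rfl | rfl
    · refine ⟨cond i v u, by cases i <;> assumption, fun x => ?_⟩
      have h4 := hhd (cn i x)
      rw [hconj, pr_cn, pr_cn, Agr_cn] at h4
      rw [← hcond]
      exact h4.2
    · exfalso
      have h4 := hhd (cn i xi) 0 (by omega)
      rw [pr_inv] at h4
      simp only [Perm.mul_apply, pr_zero, ga_apply_zero, cn_zero] at h4
      cases i <;> simp at h4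

theorem form (hSE : G_SE) (hLT : G_LT) (f : Perm X) (hf : SN f) :
    ∃ g0 g1, SN g0 ∧ SN g1 ∧ (f = pr g0 g1 ∨ f = ga * pr g0 g1) := by
  obtain ⟨c, hc⟩ := first hSE hLT f hf
  cases c
  · obtain ⟨g0, g1, h⟩ := exists_pr f (fun x => by rw [hc, Bool.xor_false])
    subst h
    exact ⟨g0, g1, SN_sec hSE g0 g1 hf false, SN_sec hSE g0 g1 hf true, Or.inl rfl⟩
  · obtain ⟨g0, g1, h⟩ := exists_pr (ga * f) (fun x => by
      rw [Perm.mul_apply, ga_apply_zero, hc]; cases x 0 <;> rfl)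
    have h2 := SN_mul hSE ga ga_mem f hf
    rw [h] at h2
    refine ⟨g0, g1, SN_sec hSE g0 g1 h2 false, SN_sec hSE g0 g1 h2 true, Or.inr ?_⟩
    rw [← h, ← mul_assoc, ga_mul_ga, one_mul]

theorem agr_pr (g0 g1 : Perm X) (n : ℕ) (x y : X) :
    Agr (n + 1) (pr g0 g1 x) (pr g0 g1 y) ↔ x 0 = y 0 ∧
      Agr n ((cond (x 0) g1 g0 : Perm X) (tl x)) ((cond (y 0) g1 g0 : Perm X) (tl y)) := by
  conv_lhs => rw [← cn_tl x, ← cn_tl y]
  rw [pr_cn, pr_cn, Agr_cn]

theorem au (h1 : G_SE) (h2 : G_LT) : G_AU := by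
  have key : ∀ n, ∀ f, SN f → ∀ x y, Agr n (f x) (f y) ↔ Agr n x y := by
    intro n
    induction n with
    | zero => exact fun f _ x y => ⟨fun _ => Agr_zero _ _, fun _ => Agr_zero _ _⟩
    | succ n ih =>
      intro f hf x y
      obtain ⟨g0, g1, s0, s1, hcase⟩ := form h1 h2 f hf
      have hpr : Agr (n + 1) (pr g0 g1 x) (pr g0 g1 y) ↔ Agr (n + 1) x y := by
        rw [agr_pr, Agr_succ]
        constructor
        · rintro ⟨h3, h4⟩
          refine ⟨h3, ?_⟩
          rw [h3] at h4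
          cases h5 : y 0
          · rw [h5] at h4; exact (ih g0 s0 _ _).mp h4
          · rw [h5] at h4; exact (ih g1 s1 _ _).mp h4
        · rintro ⟨h3, h4⟩
          refine ⟨h3, ?_⟩
          rw [h3]
          cases h5 : y 0
          · exact (ih g0 s0 _ _).mpr h4
          · exact (ih g1 s1 _ _).mpr h4
      rcases hcase with rfl | rfl
      · exact hpr
      · rw [Perm.mul_apply, Perm.mul_apply, h1.1 ga ga_mem]
        exact hpr
  exact fun f hf => ⟨fun n x y => key n f hf x y, hf.2.2.1⟩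

end Pool.Agent.Helper45.GR
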